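import Pool.Agent.Q137.UO.SaTa

/-!
# The motivic Sato-Tate conjecture and cubic hypersurfaces

Let `K` be a finitely generated field of characteristic `0` with an embedding in `ℂ`, let `k` be a
subfield over which `K` is algebraic (for instance `k = K`, or `k = ℚ` if `K` is a number field) and let
`ℓ` be a prime number. Let `M` be the category `Mot_K` of motives over `K` (for motivated cycles or for
absolute Hodge cycles), a semisimple abelian category with Tate twists `N ↦ N(a)`. For a scheme `X` of
finite type over `k` let `D.H i X` be the graded object of the weight filtration of `H^i_c(X_K)`; for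
smooth projective `X` it is the motive `h^i(X_K)`.

Let `E` be the algebraic closure of `ℚ_ℓ` and `W N = ω(N) ⊗ E` for the Betti realization `ω(N)`. The group
`P.A N` is the group `𝒢_K(N)(E)` of the `E`-points of the motivic Galois group of `N`, and `P.B N` is the
group `G_{ℓ,K}(N)(E)` of the `E`-points of the `ℓ`-adic monodromy group; both are subgroups of `GL(W N)`.
For pure `N` (property `pure`) let `Ker N` be the kernel `𝒢_{1,K}(N)(E)` of the multiplier of a
polarisation on `P.A N`; its kernel on `P.B N` is the intersection with `P.B N`. So `SatoTate P pure Ker`
is question Q1 for `K` and `ℓ`: for all pure `N` the groups `G_{1,ℓ,K}(N)` and `𝒢_{1,K}(N)` are equal.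
`Same P N` is the motivic Tate conjecture for `N` (meaningful also for motives that are not pure).

Every smooth projective variety over `K` is a union of connected components of `Y_K` for a smooth
projective scheme `Y` over `k`. For `IsST.toPure`: if `C` is an elliptic curve over `K`, every motive
`⨁ N_w` (`N_w` pure of weight `w`) is in the Tannakian category of the direct sum of `h^1(C)`, the
`N_w((w - 1) / 2)` for odd `w` and the `N_w(w / 2) ⊗ h^1(C)` for even `w`, a pure motive of weight `1`.

**Theorem.**
1. The motivic Sato-Tate conjecture is true for `K` and `ℓ` if and only if `G_{ℓ,K}(N) = 𝒢_K(N)` for all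
   finite direct sums `N` of Tate motives and of Tate twists of motives `Gr^W H^i_c(X_K)`, where `X` are
   hypersurfaces `T(x, y, z) = 1` for trilinear forms `T` with coefficients in `k`.
2. If `K` is a number field (`k = ℚ`), the hypersurfaces `∑_{(i, j, l) ∈ H} x_i y_j z_l = 1` for the finite
   sets `H` of triples suffice.
3. For every `n` the motivic Tate conjecture is true for all direct factors of finite direct sums of Tate
   twists of motives `h^i(Y_K)`, `Y` smooth projective of dimension at most `n` over `k`, if and only if
   it is true for the direct sums as in 1. with forms which have a block of at most `n + 2` variables.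
4. It is true for these direct sums if the forms have a block of at most two variables.
-/

set_option autoImplicit false

open CategoryTheory CategoryTheory.Limits AlgebraicGeometry Pool.Agent.Y116.UV Pool.Agent.Z125.UN
  Pool.Agent.Q193.LT Pool.Agent.Q137.UO

universe v u

namespace Pool.Agent.Results.MP_d61fbb_ag.CubicMotives

/-- **The motivic Sato-Tate conjecture and cubic hypersurfaces.** See the explanations above. -/
theorem result {k : Type} [Field k] [CharZero k] {M : Type u} [Category.{v} M] [Abelian M]
    {D : CompactData k M} (h : IsMotives D) {ℓ : ℕ} [Fact ℓ.Prime]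
    {W : M ⥤ ModuleCat.{0} (AlgebraicClosure ℚ_[ℓ])} {P : GroupPair W} {pure : M → Prop}
    {Ker : ∀ N, Subgroup (Aut (W.obj N))} (hX : IsST D P pure Ker) :
    (SatoTate P pure Ker ↔ SumsHave D (OfFormsAll D) (Same P)) ∧
    (Frac k → (SatoTate P pure Ker ↔ SumsHave D (OfGraphs D) (Same P))) ∧
    (∀ n : ℕ, (∀ N, FactorOfSum D (OfProj D n) N → Same P N) ↔
      SumsHave D (OfForms D (n + 2)) (Same P)) ∧
    SumsHave D (OfForms D 2) (Same P) := by
  have hP := fun {N N' : M} => Same.factor (N := N) (N' := N') hX.mot hX.gal
  have h1 := (satoTate_iff hX).trans (all_iff_sums hX)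
  have h2 := fun n => sums_dim_iff h.compact h.generated h.semisimple hP n
  refine ⟨h1.trans (sums_all_iff h.compact h.generated h.semisimple hP),
    fun hk => h1.trans (sums_graph_iff h.compact h.generated h.semisimple hP hk), fun n => ?_,
    (h2 0).1 hX.zero⟩
  rw [← h2 n]
  constructor
  · intro h3 J _ N a hN
    refine h3 _ (FactorOfSum.biproduct fun j => ?_)
    exact (gen_serre h.compact h.semisimple).twist _ _ (FactorOfSum.self h.compact (hN j))
  · intro h3 N hN
    exact of_sums hP h3 hN

end Pool.Agent.Results.MP_d61fbb_ag.CubicMotives
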