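import Pool.Agent.Q71.MM.Ort6

/-!
# The Sato-Tate conjecture with components for sums with motives of even weight

Let `k` be a finitely generated field of characteristic zero with the absolute Galois group `Γ`, `K`
an algebraic closure of `ℚ_ℓ`, `χ : Γ → Kˣ` the cyclotomic character, `G` the group of the `K`-points
of the motivic Galois group and `τ : G → Kˣ` its action on the Tate motive. The theorem is proved for
any group `Γ`, any set `G` and any function `τ`. A motive over `k` is given by its realization with the
action of `Γ` and the operators of the elements of `G`. The Sato-Tate conjecture
`G_{1,ℓ} = 𝒢_1` over `k` for `W` (the kernels of the multiplier, with their groups of components) is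
stated as follows: the Galois representation is semisimple, and every multilinear form which `Γ`
multiplies by a power of `χ` is invariant under the elements `a` of `G` with `τ a = 1`.

Let `T_j` be motives over `k` of even weights `2 u_j` with symmetric forms, of rank `3` or at least `5`,
such that the Galois representation is irreducible under all open subgroups, and such that some
Frobenius element acts on `T_j` with the slopes `h + c`, `h - c` (once each) and `h`, or some element of
an inertia group acts like a type III degeneration. Suppose that they are not isomorphic to each other
up to a twist, and not two of them have rank `8`. The Sato-Tate groups are contained in products of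
orthogonal groups `O(T_j)`, which have two components, and the determinants decide which components
occur.

Let `N` be any motive over `k` whose realization is spanned by the images (under subgroups of finite
index) of representations `U` which are small (`H2Small`: for each `j`, `U` has an invariant form up to a
character and small dimension, or inertia acts on `U` with small rank, or there are few pairs of
Frobenius slopes on `U` with the same difference as on `T_j`).

**Theorem.** Let `W` be a direct sum of `N` with copies of the `T_j`, `j ∈ S`, each of which occurs. The
Sato-Tate conjecture over `k` is true for `W` if and only if it is true for `N` and for the tensor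
products of tensor constructions of `N` with the determinants of the `T_j`, `j ∈ S`. In particular, if
`N` is a sum of Tate motives, it is true for `W` if and only if the products of the determinants of
the `T_j`, `j ∈ S`, which are powers of `χ` on the Galois group, are trivial on the motivic kernel.
-/

namespace Pool.Agent.Results.MP_d61fbb_ag.EvenWeightComponents

open Pool.Agent.Q71.MM.P Pool.Agent.Q71.AB.P

/-- **The Sato-Tate conjecture with components for sums with motives of even weight.** -/
theorem result {K : Type} [Field K] [CharZero K] [IsAlgClosed K] {Γ : Type} [Group Γ]
    {χ : Γ →* Kˣ} {G : Type} {τ : G → Kˣ} {J : Type} {u : J → ℤ} {T : J → MotG K Γ G}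
    {S : Set J} {N W : MotG K Γ G}
    (hT : EvenFamily (fun U => HasSlopes U ∨ HasTypeIII U) χ τ u T) (hW : IsSumUsing T S N W)
    (hN : HasPieces (fun U => ∀ j, H2Small (T j).rep U) N.rep) :
    (SatoTateFull χ τ W ↔ SatoTateWithDets χ τ T S N) ∧
      (TateSumG χ τ N → (SatoTateFull χ τ W ↔ DetsAgreeInKer χ τ T S)) :=
  Pool.Agent.Q71.MM.stf_full (fun _ h => h.symm) hT hW hN

end Pool.Agent.Results.MP_d61fbb_ag.EvenWeightComponents
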