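import Pool.Agent.Q71.MM.Fin3

/-!
# The Sato-Tate conjecture for sums of pure motives with three Frobenius slopes and any small motive

Let `k` be a finitely generated field of characteristic zero with the absolute Galois group `Γ` and
cyclotomic character `χ`, `K` an algebraic closure of `ℚ_ℓ`, `L` the Lie algebra of the motivic Galois
group and `t : L → K` its action on the Tate motive. The theorem is proved for any group, any set
`L` and any function `t`. A motive is given by its realization with the action of `Γ` and the
operators of the elements of `L`. For a pure motive `M` of weight `w ≠ 0` the Lie algebra of the kernel
`𝒢_1` of the multiplier consists of the `a` in `L` with `t a = 0`, and the invariants of the group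
`G_{1,ℓ}` are, up to finite index, the forms which an open subgroup multiplies by a power of `χ`; the
motivic Sato-Tate conjecture for the identity components says that the Galois representation is
semisimple and that these forms are killed by the `a` with `t a = 0` (`SatoTate`).

Let `T_j` be motives of weights `w_j` (for a pure sum all `w_j` are equal), polarized, such that the
Galois representation is irreducible under all open subgroups, and some Frobenius element acts with the
slopes `h + c`, `h - c` (once each) and `h`; in even weight the rank is `3` or at least `5`. Suppose
that they are not isomorphic up to a twist (see `Distinct`).

Let `N` be any motive whose realization is spanned by the images of representations `U` which are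
small: for each `j` the space `U` has an invariant form up to a character and small dimension, or there
are less than `dim T_j - 2` pairs of slopes of `U` with the difference `c`, for some Frobenius element
with three slopes on `T_j` with the difference `c`. For instance, `N` is any motive of Hodge-Newton
slope spread less than `c` at this place (with no condition on the rank).

**Theorem.** For all direct sums `W` of `N` with copies of the `T_j`, the Sato-Tate conjecture is true
for `W` if and only if it is true for `N`.
-/

namespace Pool.Agent.Results.MP_d61fbb_ag.FrobeniusSlopeSums

open Pool.Agent.Q71.MM.P Pool.Agent.Q71.AB.P

/-- **The motivic Sato-Tate conjecture for sums.** -/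
theorem result {K : Type} [Field K] [CharZero K] [IsAlgClosed K] {Γ : Type} [Group Γ]
    {χ : Γ →* Kˣ} {L : Type} {t : L → K} {J : Type} {w : J → ℤ} {T : J → Mot K Γ L}
    {N W : Mot K Γ L} (hT : SlopeFamily χ t w T) (hW : IsSum T N W)
    (hN : HasPieces (fun U => ∀ j, SlopeSmall (w j) (T j).rep U) N.rep) :
    SatoTate χ t W ↔ SatoTate χ t N :=
  Pool.Agent.Q71.MM.st_slopes hT hN hW

end Pool.Agent.Results.MP_d61fbb_ag.FrobeniusSlopeSums
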