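import Pool.Agent.Q49.WU.Groups

/-!
# The motivic Sato-Tate conjecture in one degree and cubic hypersurfaces

Let `K` be a finitely generated field of characteristic `0` with an embedding in `ℂ`, let `k` be a
subfield over which `K` is algebraic (for instance `k = K`, or `k = ℚ` if `K` is a number field), let `ℓ`
be a prime number and let `w ≥ 1` be a fixed degree. Let `M` be the category `Mot_K` of motives over `K`
(for motivated cycles or for absolute Hodge cycles), a semisimple abelian category with Tate twists
`N ↦ N(a)`. For a scheme `X` of finite type over `k` let `D.H m n X` be the motive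
`Gr^W_{w+2m} H^n_c(X_K)`. For smooth projective `Y` the motive `D.H 0 n Y` is `h^w(Y_K)` if `n = w`, and
zero for all other `n`. The motives of level `w` are the direct factors of finite direct sums of Tate
twists of motives `h^w(Y_K)`, `Y` smooth projective over `k`, and, for even `w`, of Tate motives:
`FactorAt D (OfProjAt D) N`.

Let `E` be the algebraic closure of `ℚ_ℓ` and `W N = ω(N) ⊗ E` for the Betti realization `ω(N)`. The group
`P.A N` is the group `𝒢_K(N)(E)` of the `E`-points of the motivic Galois group of `N`, and `P.B N` is the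
group `G_{ℓ,K}(N)(E)` of the `E`-points of the `ℓ`-adic monodromy group; both are subgroups of `GL(W N)`.
For pure `N` (property `pure`) let `Ker N` be the kernel `𝒢_{1,K}(N)(E)` of the multiplier of a
polarisation on `P.A N`; its kernel on `P.B N` is the intersection with `P.B N`. So
`Ker N ⊓ P.B N = Ker N` is question Q1 for `K`, `ℓ` and the pure motive `N`.

For `IsSato.toPure`: let `N` be of level `w`, the direct sum of its pure parts `N_v`, and let `C` be an
elliptic curve. If `w` is odd, let `N'` be the direct sum of the motives `N_v((v - 1) / 2)` and `h^1(C)`,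
pure of weight `1`; if `w` is even, let `N'` be the direct sum of the `N_v(v / 2 - 1)` and `ℚ(-1)`, pure of
weight `2`. Then `N'` is of level `w`, and `N` is in the Tannakian category of `N'`, as it contains
`ℚ(1)`.

**Theorem.** Fix `w ≥ 1`. The motivic Sato-Tate conjecture `G_{1,ℓ,K}(N) = 𝒢_{1,K}(N)` is true for all pure
motives `N` of level `w` if and only if `G_{ℓ,K}(N) = 𝒢_K(N)` is true

1. for all finite direct sums `N` of Tate motives and of Tate twists of the motives
   `Gr^W_{w+2(a-1)} H^n_c` of the smooth affine cubic hypersurfaces `T(x, y, z) = 1` of all trilinear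
   forms `T` with coefficients in `k`, in `a` variables `x_p` and any numbers of variables `y_q`, `z_r`:
   only this one weight of the cohomology of `T = 1` is needed;
2. if `K` is a number field (`k = ℚ`), equivalently for the same sums for the hypersurfaces
   `∑_{(p, q, r) ∈ H} x_p y_q z_r = 1` of all finite sets `H` of triples.
-/

set_option autoImplicit false

open CategoryTheory CategoryTheory.Limits AlgebraicGeometry Pool.Agent.Y116.UV Pool.Agent.Z125.UN
  Pool.Agent.Q193.LT Pool.Agent.Q137.UO Pool.Agent.Q49.WU

universe v u

namespace Pool.Agent.Results.MP_d61fbb_ag.WeightByWeight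

/-- The known properties of the motivic Galois groups `P.A N`, of the `ℓ`-adic monodromy groups `P.B N`
and of the kernels `Ker N` of the multipliers on the groups `P.A N`, for pure `N` (property `pure`):

* `sub`: `P.B N` is contained in `P.A N`;
* `mot`, `gal`: the groups of direct factors;
* `onto`: for pure `N` the multiplier has the same image on the two groups, so `P.A N = Ker N · P.B N`;
* `toPure`: for every motive `N` of level `w` there is a pure motive `N'` of level `w` such that the two
  groups are equal for `N` if they are equal for `N'`. -/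
structure IsSato {k : Type} [Field k] {M : Type u} [Category.{v} M] [Abelian M]
    (D : WeightData k M) {C : Type 1} [Category.{0} C] {W : M ⥤ C} (P : GroupPair W)
    (pure : M → Prop) (Ker : ∀ N, Subgroup (Aut (W.obj N))) : Prop where
  sub : ∀ N, P.B N ≤ P.A N
  mot : Restricts P.A
  gal : Restricts P.B
  onto : ∀ N, pure N → Ker N ≤ P.A N ∧ ∀ g ∈ P.A N, ∃ h ∈ P.B N, g * h⁻¹ ∈ Ker N
  toPure : ∀ N, FactorAt D (OfProjAt D) N →
    ∃ N', pure N' ∧ FactorAt D (OfProjAt D) N' ∧ (Same P N' → Same P N)

/-- The motivic Sato-Tate conjecture for the pure motives of level `w`. -/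
def SatoTateAt {k : Type} [Field k] {M : Type u} [Category.{v} M] [Abelian M]
    (D : WeightData k M) {C : Type 1} [Category.{0} C] {W : M ⥤ C} (P : GroupPair W)
    (pure : M → Prop) (Ker : ∀ N, Subgroup (Aut (W.obj N))) : Prop :=
  ∀ N, pure N → FactorAt D (OfProjAt D) N → Ker N ⊓ P.B N = Ker N

lemma satoTateAt_iff {k : Type} [Field k] {M : Type u} [Category.{v} M] [Abelian M]
    {D : WeightData k M} {C : Type 1} [Category.{0} C] {W : M ⥤ C} {P : GroupPair W}
    {pure : M → Prop} {Ker : ∀ N, Subgroup (Aut (W.obj N))} (hX : IsSato D P pure Ker) :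
    SatoTateAt D P pure Ker ↔ ∀ N, FactorAt D (OfProjAt D) N → Same P N := by
  constructor
  · intro h N hN
    obtain ⟨N', hN', hF, h1⟩ := hX.toPure N hN
    refine h1 (le_antisymm (fun g hg => ?_) (hX.sub N'))
    obtain ⟨b, hb, h2⟩ := (hX.onto N' hN').2 g hg
    rw [← h N' hN' hF] at h2
    have h3 := (P.B N').mul_mem h2.2 hb
    rwa [inv_mul_cancel_right] at h3
  · intro h N hN hF
    rw [← show P.A N = P.B N from h N hF]
    exact inf_eq_left.2 (hX.onto N hN).1

/-- **The motivic Sato-Tate conjecture in one degree and cubic hypersurfaces.** See the explanations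
above. -/
theorem result {k : Type} [Field k] [CharZero k] {M : Type u} [Category.{v} M] [Abelian M]
    {D : WeightData k M} (h : IsWMotives D) {ℓ : ℕ} [Fact ℓ.Prime]
    {W : M ⥤ ModuleCat.{0} (AlgebraicClosure ℚ_[ℓ])} {P : GroupPair W} {pure : M → Prop}
    {Ker : ∀ N, Subgroup (Aut (W.obj N))} (hX : IsSato D P pure Ker) :
    (SatoTateAt D P pure Ker ↔ SumsAt D (OfFormsAt D) (Same P)) ∧
    (Frac k → (SatoTateAt D P pure Ker ↔ SumsAt D (OfGraphsAt D) (Same P))) := by
  have hP : Inherits (Same P) := Same.factor hX.mot hX.gal
  exact ⟨(satoTateAt_iff hX).trans ((factorAt_iff hP _).trans (sumsAt_iff h hP)),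
    fun hF => (satoTateAt_iff hX).trans ((factorAt_iff hP _).trans (sumsAt_graph h hP hF))⟩

end Pool.Agent.Results.MP_d61fbb_ag.WeightByWeight
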